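import Pool.Agent.Helper57.SL.Stmts
import Pool.Agent.Helper99.SI.MT

/-! # Row MTS: consequences of Mertens' theorem near `σ = 1` -/

set_option autoImplicit false

namespace Pool.Agent.Helper42.SL

open MeasureTheory Set Filter Topology
open Pool.Agent.Helper57.SL
open Pool.Agent.Helper57.SI (Kk zz)
open Pool.Agent.Helper99.SI (MT_z MT_l4)
open Pool.Agent.Helper56.CP (mtA mtA_le mtA_ge)

theorem MTS_diff (g : ℕ → ℝ) (a b : ℕ) (h : a ≤ b) :
    ∑ p ∈ Nat.primesBelow (b + 1), g p - ∑ p ∈ Nat.primesBelow (a + 1), g p =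
      ∑ p ∈ Nat.primesBelow (b + 1) \ Nat.primesBelow (a + 1), g p := by
  have hsub : Nat.primesBelow (a + 1) ⊆ Nat.primesBelow (b + 1) := by
    intro p hp
    rw [Nat.mem_primesBelow] at hp ⊢
    exact ⟨by omega, hp.2⟩
  rw [← Finset.sum_sdiff hsub]
  ring

theorem MTS_mem {a b p : ℕ} (hp : p ∈ Nat.primesBelow (b + 1) \ Nat.primesBelow (a + 1)) :
    a < p ∧ p ≤ b ∧ p.Prime := by
  rw [Finset.mem_sdiff, Nat.mem_primesBelow, Nat.mem_primesBelow] at hp
  refine ⟨?_, by omega, hp.1.2⟩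
  by_contra hh
  exact hp.2 ⟨by omega, hp.1.2⟩

theorem MTS_term {p : ℕ} (hp : p.Prime) (σ : ℝ) :
    Real.log p * (p : ℝ) ^ (-σ) = Real.log p / p * (p : ℝ) ^ (1 - σ) := by
  have h0 : (0 : ℝ) < p := by exact_mod_cast hp.pos
  have : (p : ℝ) ^ (1 - σ) = p * (p : ℝ) ^ (-σ) := by
    rw [sub_eq_add_neg, Real.rpow_add h0, Real.rpow_one]
  rw [this]
  field_simp

theorem MTS_up (a b : ℕ) (h : a ≤ b) (σ : ℝ) (hσ : σ ≤ 1) :
    S2 σ b - S2 σ a ≤ (b : ℝ) ^ (1 - σ) * (mtA b - mtA a) := by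
  have e1 : mtA b - mtA a =
      ∑ p ∈ Nat.primesBelow (b + 1) \ Nat.primesBelow (a + 1), Real.log p / (p : ℝ) :=
    MTS_diff (fun p => Real.log p / (p : ℝ)) a b h
  have e2 := MTS_diff (fun p => Real.log p * (p : ℝ) ^ (-σ)) a b h
  unfold S2
  rw [e1, e2, Finset.mul_sum]
  refine Finset.sum_le_sum fun p hp => ?_
  obtain ⟨h1, h2, h3⟩ := MTS_mem hp
  rw [MTS_term h3, mul_comm]
  refine mul_le_mul_of_nonneg_right ?_ (div_nonneg (Real.log_natCast_nonneg p) (Nat.cast_nonneg p))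
  exact Real.rpow_le_rpow (Nat.cast_nonneg p) (by exact_mod_cast h2) (by linarith)

theorem MTS_low (a b : ℕ) (h : a ≤ b) (σ : ℝ) (hσ : σ ≤ 1) :
    (a : ℝ) ^ (1 - σ) * (mtA b - mtA a) ≤ S2 σ b - S2 σ a := by
  have e1 : mtA b - mtA a =
      ∑ p ∈ Nat.primesBelow (b + 1) \ Nat.primesBelow (a + 1), Real.log p / (p : ℝ) :=
    MTS_diff (fun p => Real.log p / (p : ℝ)) a b h
  have e2 := MTS_diff (fun p => Real.log p * (p : ℝ) ^ (-σ)) a b h
  unfold S2
  rw [e1, e2, Finset.mul_sum]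
  refine Finset.sum_le_sum fun p hp => ?_
  obtain ⟨h1, h2, h3⟩ := MTS_mem hp
  rw [MTS_term h3, mul_comm ((a : ℝ) ^ (1 - σ))]
  refine mul_le_mul_of_nonneg_left ?_ (div_nonneg (Real.log_natCast_nonneg p) (Nat.cast_nonneg p))
  exact Real.rpow_le_rpow (Nat.cast_nonneg a) (by exact_mod_cast h1.le) (by linarith)

theorem MTS_S1 (a b : ℕ) (h : a ≤ b) (σ : ℝ) :
    Real.log a * (S1 σ b - S1 σ a) ≤ S2 σ b - S2 σ a := by
  have e1 := MTS_diff (fun p => (p : ℝ) ^ (-σ)) a b h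
  have e2 := MTS_diff (fun p => Real.log p * (p : ℝ) ^ (-σ)) a b h
  unfold S1 S2
  rw [e1, e2, Finset.mul_sum]
  refine Finset.sum_le_sum fun p hp => ?_
  obtain ⟨h1, h2, h3⟩ := MTS_mem hp
  refine mul_le_mul_of_nonneg_right ?_ (Real.rpow_nonneg (Nat.cast_nonneg p) _)
  rcases Nat.eq_zero_or_pos a with h0 | h0
  · subst h0
    rw [Nat.cast_zero, Real.log_zero]
    exact Real.log_natCast_nonneg p
  · exact Real.log_le_log (by exact_mod_cast h0) (by exact_mod_cast h1.le)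

theorem MTS_nonneg (σ : ℝ) (n : ℕ) : 0 ≤ S2 σ n :=
  Finset.sum_nonneg fun p _ =>
    mul_nonneg (Real.log_natCast_nonneg p) (Real.rpow_nonneg (Nat.cast_nonneg p) _)

theorem MTS_ge (σ : ℝ) (hσ : σ ≤ 1) (n : ℕ) : mtA n ≤ S2 σ n := by
  change ∑ p ∈ Nat.primesBelow (n + 1), Real.log p / (p : ℝ) ≤ _
  unfold S2
  refine Finset.sum_le_sum fun p hp => ?_
  have h3 : p.Prime := (Nat.mem_primesBelow.1 hp).2
  rw [MTS_term h3]
  refine le_mul_of_one_le_right
    (div_nonneg (Real.log_natCast_nonneg p) (Nat.cast_nonneg p)) ?_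
  exact Real.one_le_rpow (by exact_mod_cast h3.one_lt.le) (by linarith)

theorem MTS_exp : Real.exp 1 ≤ 3 := by
  have := Real.exp_one_lt_d9
  linarith

theorem st_MTS : ST_MTS := by
  intro η hη C
  obtain ⟨hη0, hη1⟩ := hη
  obtain ⟨A, hA⟩ : ∃ A : ℝ, A = 400 / η := ⟨_, rfl⟩
  have hAη : η * A = 400 := by rw [hA]; field_simp
  have hA400 : 400 ≤ A := by
    rw [hA, le_div_iff₀ hη0]
    linarith
  obtain ⟨κ, hκ⟩ : ∃ κ : ℝ, κ = 1 / (8 + A) := ⟨_, rfl⟩
  have hκ0 : 0 < κ := by rw [hκ]; positivity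
  have hκA : κ * (8 + A) = 1 := by rw [hκ]; field_simp
  have hκ408 : 408 * κ ≤ 1 := by
    have : 400 * κ ≤ A * κ := mul_le_mul_of_nonneg_right hA400 hκ0.le
    have h10 : κ * (8 + A) = 8 * κ + A * κ := by ring
    linarith
  obtain ⟨ε, hε⟩ : ∃ ε : ℝ, ε = 1 / (4 * (10 + A)) := ⟨_, rfl⟩
  have hε0 : 0 < ε := by rw [hε]; positivity
  have hεA : (10 + A) * ε = 1 / 4 := by rw [hε]; field_simp
  have hC0 : 0 ≤ |C| := abs_nonneg C
  have hCη : 0 ≤ |C| / η := by positivity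
  obtain ⟨N, hN⟩ : ∃ N : ℝ, N = max 80 (4 * ((10 + A) * (-Real.log ε) + 20 + |C| + |C| / η)) :=
    ⟨_, rfl⟩
  refine ⟨κ, ⟨hκ0, by linarith⟩, Real.exp (Real.exp N), ?_, ?_⟩
  · have h1 := Real.add_one_le_exp (Real.exp N)
    have h2 := Real.add_one_le_exp N
    have h3 : 80 ≤ N := by rw [hN]; exact le_max_left _ _
    linarith
  intro H hH
  have hHpos : 0 < H := (Real.exp_pos _).trans_le hH
  have hL : Real.exp N ≤ Real.log H := by
    rw [Real.le_log_iff_exp_le hHpos]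
    exact hH
  have hLpos : 0 < Real.log H := (Real.exp_pos _).trans_le hL
  have hl : N ≤ Real.log (Real.log H) := by
    rw [Real.le_log_iff_exp_le hLpos]
    exact hL
  have h80 : 80 ≤ Real.log (Real.log H) := by
    rw [hN] at hl
    exact (le_max_left _ _).trans hl
  have hbig : 4 * ((10 + A) * (-Real.log ε) + 20 + |C| + |C| / η) ≤ Real.log (Real.log H) := by
    rw [hN] at hl
    exact (le_max_right _ _).trans hl
  unfold zz YY Kk l3
  generalize hLd : Real.log H = L at *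
  generalize hld : Real.log L = l at *
  obtain ⟨hz0, hzL, hzlog⟩ := MT_z L l hLpos hld h80
  have hl0 : 0 < l := by linarith
  generalize hmd : Real.log l = m at *
  have hm1 : 1 ≤ m := by
    rw [← hmd, Real.le_log_iff_exp_le hl0]
    have := MTS_exp
    linarith
  have hml : (10 + A) * m ≤ l / 4 + (10 + A) * (-Real.log ε) := by
    have h1 : Real.log (ε * l) ≤ ε * l - 1 := Real.log_le_sub_one_of_pos (by positivity)
    rw [Real.log_mul hε0.ne' hl0.ne', hmd] at h1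
    have h2 : (10 + A) * m ≤ (10 + A) * (ε * l - Real.log ε) :=
      mul_le_mul_of_nonneg_left (by linarith) (by linarith)
    have h3 : (10 + A) * (ε * l - Real.log ε) = ((10 + A) * ε) * l + (10 + A) * (-Real.log ε) := by
      ring
    rw [h3, hεA] at h2
    linarith
  have hstar : (10 + A) * m + 20 + |C| + |C| / η ≤ l / 2 := by linarith
  have hAm : 400 * m ≤ A * m := mul_le_mul_of_nonneg_right hA400 (by linarith)
  have hstar' : 10 * m + A * m + 20 + |C| + |C| / η ≤ l / 2 := by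
    have : (10 + A) * m = 10 * m + A * m := by ring
    linarith
  have hlog1 : Real.log (l + 1) ≤ m + 1 := by
    have h1 : Real.log (l + 1) ≤ Real.log (2 * l) := Real.log_le_log (by linarith) (by linarith)
    rw [Real.log_mul (by norm_num) hl0.ne', hmd] at h1
    have := Real.log_two_lt_d9
    linarith
  have hL1 : 1 ≤ L := by
    have := Real.add_one_le_exp l
    rw [← hld, Real.exp_log hLpos] at this
    linarith
  have hl10 : 1 ≤ l ^ 10 := one_le_pow₀ (by linarith)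
  have hLl : L ≤ L * l ^ 10 := le_mul_of_one_le_right hLpos.le hl10
  have hzL' : ⌊L / (8 * (⌈l⌉₊ : ℝ))⌋₊ ≤ ⌊L⌋₊ := Nat.floor_le_floor hzL
  have hLY : ⌊L⌋₊ ≤ ⌊L * l ^ 10⌋₊ := Nat.floor_le_floor hLl
  generalize hz : ⌊L / (8 * (⌈l⌉₊ : ℝ))⌋₊ = z at *
  generalize hY : ⌊L * l ^ 10⌋₊ = Y at *
  have hzY : z ≤ Y := hzL'.trans hLY
  have hz1 : (0 : ℝ) < z := by exact_mod_cast hz0
  have hY0 : 0 < Y := lt_of_lt_of_le hz0 hzY
  have hY1 : (0 : ℝ) < Y := by exact_mod_cast hY0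
  have hlz : l - 4 - m ≤ Real.log z := by linarith
  have hYlog : Real.log Y ≤ l + 10 * m := by
    have h1 : (Y : ℝ) ≤ L * l ^ 10 := by
      rw [← hY]
      exact Nat.floor_le (by positivity)
    have h2 := Real.log_le_log hY1 h1
    rw [Real.log_mul hLpos.ne' (by positivity), Real.log_pow, hld, hmd] at h2
    push_cast at h2
    linarith
  have hCabs : C ≤ |C| := le_abs_self C
  have hzexp : Real.log z ≤ z := by
    have := Real.log_le_sub_one_of_pos hz1
    linarith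
  have h4 := MT_l4
  have hAz : Real.log z - 3 ≤ mtA z := mtA_ge hz0
  have hAY : mtA Y ≤ Real.log Y + Real.log 4 := mtA_le hY0
  refine ⟨hm1, by linarith, hzL', hLY, Real.log_natCast_nonneg Y, by linarith, ?_⟩
  intro σ hσ
  obtain ⟨hσ0, hσ1⟩ := hσ
  have hm0 : 0 < m := by linarith
  have hx0 : 0 ≤ 1 - σ := by linarith
  have hxm : (1 - σ) * m ≤ κ := by
    have : 1 - σ ≤ κ / m := by linarith
    rwa [le_div_iff₀ hm0] at this
  have hκm : κ / m ≤ κ := div_le_self hκ0.le hm1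
  have hx1 : 1 - σ ≤ (1 - σ) * m := le_mul_of_one_le_right hx0 hm1
  have hSz : mtA z ≤ S2 σ z := MTS_ge σ hσ1 z
  have hSl : l / 2 ≤ S2 σ z := by linarith
  -- the upper bound
  have hup : S2 σ Y - S2 σ z ≤ 63 * ((z : ℝ) ^ (1 - σ) * m) := by
    have h1 := MTS_up z Y hzY σ hσ1
    have h2 : mtA Y - mtA z ≤ 21 * m := by linarith
    have h3 : (Y : ℝ) ^ (1 - σ) ≤ 3 * (z : ℝ) ^ (1 - σ) := by
      rw [Real.rpow_def_of_pos hY1, Real.rpow_def_of_pos hz1]
      have h5 : Real.log Y * (1 - σ) ≤ 1 + Real.log z * (1 - σ) := by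
        have h6 : (Real.log Y - Real.log z) * (1 - σ) ≤ (11 * m + 4) * (1 - σ) :=
          mul_le_mul_of_nonneg_right (by linarith) hx0
        have h8 : (11 * m + 4) * (1 - σ) = 11 * ((1 - σ) * m) + 4 * (1 - σ) := by ring
        have h9 : (Real.log Y - Real.log z) * (1 - σ) =
            Real.log Y * (1 - σ) - Real.log z * (1 - σ) := by ring
        linarith
      calc Real.exp (Real.log Y * (1 - σ)) ≤ Real.exp (1 + Real.log z * (1 - σ)) :=
            Real.exp_le_exp.2 h5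
        _ = Real.exp 1 * Real.exp (Real.log z * (1 - σ)) := Real.exp_add _ _
        _ ≤ 3 * Real.exp (Real.log z * (1 - σ)) :=
            mul_le_mul_of_nonneg_right MTS_exp (Real.exp_pos _).le
    have h7 : 0 ≤ (Y : ℝ) ^ (1 - σ) := by positivity
    calc S2 σ Y - S2 σ z ≤ (Y : ℝ) ^ (1 - σ) * (mtA Y - mtA z) := h1
      _ ≤ (Y : ℝ) ^ (1 - σ) * (21 * m) := mul_le_mul_of_nonneg_left h2 h7
      _ ≤ (3 * (z : ℝ) ^ (1 - σ)) * (21 * m) := mul_le_mul_of_nonneg_right h3 (by positivity)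
      _ = 63 * ((z : ℝ) ^ (1 - σ) * m) := by ring
  -- the lower bound
  have hlow : A * ((z : ℝ) ^ (1 - σ) * m) ≤ 3 * S2 σ z := by
    obtain ⟨r, hr⟩ : ∃ r : ℝ, r = (z : ℝ) * Real.exp (-(7 + A * m)) := ⟨_, rfl⟩
    have hr0 : 0 < r := by rw [hr]; positivity
    have hrlog : Real.log r = Real.log z - 7 - A * m := by
      rw [hr, Real.log_mul hz1.ne' (Real.exp_pos _).ne', Real.log_exp]
      ring
    have hr2 : 2 ≤ r := by
      have h1 : 1 ≤ Real.log r := by rw [hrlog]; linarith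
      have := Real.log_le_sub_one_of_pos hr0
      linarith
    obtain ⟨v, hv⟩ : ∃ v : ℕ, v = ⌊r⌋₊ := ⟨_, rfl⟩
    have hvr : (v : ℝ) ≤ r := by rw [hv]; exact Nat.floor_le hr0.le
    have hvr2 : r / 2 ≤ v := by
      have : r - 1 < (v : ℝ) := by rw [hv]; exact Nat.sub_one_lt_floor _
      linarith
    have hv1 : (0 : ℝ) < v := by linarith
    have hv0 : 0 < v := by exact_mod_cast hv1
    have hrz : r ≤ z := by
      rw [hr]
      refine mul_le_of_le_one_right hz1.le ?_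
      rw [Real.exp_le_one_iff]
      have : 0 ≤ A * m := by positivity
      linarith
    have hvz : v ≤ z := by exact_mod_cast hvr.trans hrz
    have hlv1 : Real.log v ≤ Real.log z - 7 - A * m := by
      rw [← hrlog]
      exact Real.log_le_log hv1 hvr
    have hlv2 : Real.log z - 8 - A * m ≤ Real.log v := by
      have h1 := Real.log_le_log (by positivity) hvr2
      rw [Real.log_div hr0.ne' (by norm_num), hrlog] at h1
      have := Real.log_two_lt_d9
      linarith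
    have h1 := MTS_low v z hvz σ hσ1
    have h2 : A * m ≤ mtA z - mtA v := by
      have h3 : mtA v ≤ Real.log v + Real.log 4 := mtA_le hv0
      linarith
    have h3 : (z : ℝ) ^ (1 - σ) ≤ 3 * (v : ℝ) ^ (1 - σ) := by
      rw [Real.rpow_def_of_pos hv1, Real.rpow_def_of_pos hz1]
      have h5 : Real.log z * (1 - σ) ≤ 1 + Real.log v * (1 - σ) := by
        have h6 : (Real.log z - Real.log v) * (1 - σ) ≤ (8 + A * m) * (1 - σ) :=
          mul_le_mul_of_nonneg_right (by linarith) hx0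
        have h7 : A * ((1 - σ) * m) ≤ A * κ := mul_le_mul_of_nonneg_left hxm (by linarith)
        have h8 : (8 + A * m) * (1 - σ) = 8 * (1 - σ) + A * ((1 - σ) * m) := by ring
        have h9 : (Real.log z - Real.log v) * (1 - σ) =
            Real.log z * (1 - σ) - Real.log v * (1 - σ) := by ring
        have h10 : κ * (8 + A) = 8 * κ + A * κ := by ring
        linarith
      calc Real.exp (Real.log z * (1 - σ)) ≤ Real.exp (1 + Real.log v * (1 - σ)) :=
            Real.exp_le_exp.2 h5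
        _ = Real.exp 1 * Real.exp (Real.log v * (1 - σ)) := Real.exp_add _ _
        _ ≤ 3 * Real.exp (Real.log v * (1 - σ)) :=
            mul_le_mul_of_nonneg_right MTS_exp (Real.exp_pos _).le
    have h7 : 0 ≤ (v : ℝ) ^ (1 - σ) := by positivity
    have h8 := MTS_nonneg σ v
    have hAm0 : 0 ≤ A * m := by positivity
    calc A * ((z : ℝ) ^ (1 - σ) * m) = (z : ℝ) ^ (1 - σ) * (A * m) := by ring
      _ ≤ (3 * (v : ℝ) ^ (1 - σ)) * (A * m) := mul_le_mul_of_nonneg_right h3 hAm0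
      _ = 3 * ((v : ℝ) ^ (1 - σ) * (A * m)) := by ring
      _ ≤ 3 * ((v : ℝ) ^ (1 - σ) * (mtA z - mtA v)) := by
          have := mul_le_mul_of_nonneg_left h2 h7
          linarith
      _ ≤ 3 * S2 σ z := by linarith
  have hP : 0 ≤ (z : ℝ) ^ (1 - σ) * m := by positivity
  have hlow' : 400 * ((z : ℝ) ^ (1 - σ) * m) ≤ 3 * (η * S2 σ z) := by
    have h1 := mul_le_mul_of_nonneg_left hlow hη0.le
    have h2 : η * (A * ((z : ℝ) ^ (1 - σ) * m)) = 400 * ((z : ℝ) ^ (1 - σ) * m) := by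
      rw [← mul_assoc, hAη]
    linarith
  refine ⟨by linarith, ?_, by linarith, by linarith, ?_⟩
  · have h1 : |C| / η ≤ S2 σ z := by linarith
    rw [div_le_iff₀ hη0] at h1
    linarith
  · have h5 := MTS_S1 z Y hzY σ
    have h6 : l / 2 ≤ Real.log z := by linarith
    have h7 : (l / 2) * (S1 σ Y - S1 σ z) ≤ 63 * ((z : ℝ) ^ (1 - σ) * m) := by
      have hS1 : 0 ≤ S1 σ Y - S1 σ z := by
        have e1 := MTS_diff (fun p => (p : ℝ) ^ (-σ)) z Y hzY
        unfold S1
        rw [e1]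
        exact Finset.sum_nonneg fun p _ => Real.rpow_nonneg (Nat.cast_nonneg p) _
      have := mul_le_mul_of_nonneg_right h6 hS1
      linarith
    have h8 : (S1 σ Y - S1 σ z) * l ≤ η * S2 σ z := by
      have e : (l / 2) * (S1 σ Y - S1 σ z) = (S1 σ Y - S1 σ z) * l / 2 := by ring
      rw [e] at h7
      linarith
    rw [← mul_div_assoc, le_div_iff₀ hl0]
    exact h8

end Pool.Agent.Helper42.SL
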